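import Pool.Agent.W46.MZ.Stm

/-! # Sets of positive upper Banach density are clustered -/

set_option autoImplicit false

namespace Pool.Agent.W398.MZ

theorem core (S : Set ℕ) (k n : ℕ) (hn : 0 < n) (x0 : ℕ)
    (hfail : ∀ x, x0 ≤ x → ∀ T : Finset ℕ, (∀ t ∈ T, t ∈ S ∧ x ≤ t ∧ t ≤ x + 2 * k * n) →
      T.card ≤ n - 1) (x N : ℕ) (hx : x0 ≤ x) (hN : 2 * k * n + 1 ≤ N) (T : Finset ℕ)
    (hT : ∀ t ∈ T, t ∈ S ∧ x ≤ t ∧ t ≤ x + N) (hNk : N ≤ k * T.card) : False := by
  set L := 2 * k * n with hL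
  have h1 : T.card ≤ (n - 1) * (Finset.range (N / (L + 1) + 1)).card := by
    refine Finset.card_le_mul_card_image_of_maps_to (f := fun t => (t - x) / (L + 1)) ?_ _ ?_
    · intro t ht
      rw [Finset.mem_range, Nat.lt_succ_iff]
      apply Nat.div_le_div_right
      have := hT t ht
      omega
    · intro j _
      refine hfail (x + j * (L + 1)) (by omega) _ ?_
      intro t ht
      rw [Finset.mem_filter] at ht
      obtain ⟨ht1, ht2⟩ := ht
      have h3 := hT t ht1
      have h4 : (t - x) / (L + 1) = j := ht2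
      have h5 := Nat.div_add_mod (t - x) (L + 1)
      have h6 := Nat.mod_lt (t - x) (Nat.succ_pos L)
      rw [h4] at h5
      have h7 : (L + 1) * j = j * (L + 1) := mul_comm _ _
      rw [h7] at h5
      generalize j * (L + 1) = w at h5 ⊢
      generalize (t - x) % (L + 1) = r at h5 h6
      have h8 := h3.2.1
      refine ⟨h3.1, ?_, ?_⟩
      · omega
      · clear_value L
        omega
  rw [Finset.card_range] at h1
  set q := N / (L + 1) with hq
  have h2 : (L + 1) * q ≤ N := Nat.mul_div_le N (L + 1)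
  have h3 : 2 * N ≤ 2 * k * ((n - 1) * (q + 1)) := by
    calc 2 * N ≤ 2 * (k * T.card) := by omega
      _ = 2 * k * T.card := by ring
      _ ≤ _ := Nat.mul_le_mul_left _ h1
  have h4 : 2 * k * ((n - 1) * (q + 1)) ≤ L * (q + 1) := by
    rw [hL, ← mul_assoc]
    exact Nat.mul_le_mul_right _ (Nat.mul_le_mul_left _ (by omega))
  nlinarith

open Finset Pool.Agent.W46.MZ in
theorem DENS : S_DENS := by
  rintro S ⟨k, hk, h⟩ n
  rcases Nat.eq_zero_or_pos n with rfl | hn
  · exact ⟨0, fun x₀ => ⟨x₀, le_rfl, ∅, Finset.empty_subset _, by simp, rfl⟩⟩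
  refine ⟨2 * k * n, ?_⟩
  by_contra hcon
  push Not at hcon
  obtain ⟨x₀, hx₀⟩ := hcon
  obtain ⟨x, hx, N, hN, T, hT, hTS, hNk⟩ := h (2 * k * n + 1) x₀
  refine core S k n hn x₀ ?_ x N hx hN T ?_ hNk
  · intro y hy U hU
    by_contra hlt
    obtain ⟨V, hVU, hV⟩ := Finset.exists_subset_card_eq (s := U) (n := n) (by omega)
    refine hx₀ y hy V ?_ ?_ hV
    · intro t ht
      rw [Finset.mem_Icc]
      exact (hU t (hVU ht)).2
    · intro t ht
      exact (hU t (hVU ht)).1
  · intro t ht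
    have := Finset.mem_Icc.mp (hT ht)
    exact ⟨hTS ht, this.1, this.2⟩

end Pool.Agent.W398.MZ
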